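import Mathlib
import Pool.Agent.Y902.GN.Stm
import Pool.Agent.Y902.FD.Ks

/-!
# Project GN, job B: a function with derivative zero is constant on residue classes

The spec's chain of small steps does not connect the points (ultrametric inequality); instead: formal
solutions along the segment, polynomials over `ℤ_q` modulo `X ^ r`, evaluated at `X = q`.
-/

set_option autoImplicit false

namespace Pool.Agent.Y317.GN

open MvPolynomial Pool.Agent.Y902.GN

/-- evaluation at a point of any commutative ring -/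
noncomputable def ev {σ A : Type*} [CommRing A] (x : σ → A) : MvPolynomial σ ℤ →+* A :=
  eval₂Hom (Int.castRingHom A) x

theorem ev_C {σ A : Type*} [CommRing A] (x : σ → A) (a : ℤ) : ev x (C a) = (a : A) := by
  simp [ev]

theorem ev_X {σ A : Type*} [CommRing A] (x : σ → A) (i : σ) : ev x (X i) = x i := by
  simp [ev]

theorem ev_map {σ A B : Type*} [CommRing A] [CommRing B] (φ : A →+* B) (x : σ → A)
    (G : MvPolynomial σ ℤ) : φ (ev x G) = ev (fun i => φ (x i)) G := by
  induction G using MvPolynomial.induction_on with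
  | C a => simp [ev_C]
  | add f g hf hg => simp only [map_add, hf, hg]
  | mul_X f i hf => simp only [map_mul, hf, ev_X]

theorem ev_int {σ : Type*} (x : σ → ℤ) (G : MvPolynomial σ ℤ) : ev x G = eval x G := by
  induction G using MvPolynomial.induction_on with
  | C a => simp [ev_C]
  | add f g hf hg => simp only [map_add, hf, hg]
  | mul_X f i hf => simp only [map_mul, hf, ev_X, eval_X]

theorem ev_cast {σ A : Type*} [CommRing A] (x : σ → ℤ) (G : MvPolynomial σ ℤ) :
    ev (fun i => (x i : A)) G = ((eval x G : ℤ) : A) := by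
  rw [← ev_int]
  exact (ev_map (Int.castRingHom A) x G).symm

/-! ### Taylor expansion in the last variable -/

theorem taylor {ι A : Type*} [CommRing A] (x y : Option ι → A) (δ : A) (hb : ∀ b, y (some b) = x (some b))
    (hn : y none = x none + δ) (G : MvPolynomial (Option ι) ℤ) :
    ∃ e : A, ev y G = ev x G + δ * ev x (pderiv none G) + δ ^ 2 * e := by
  classical
  induction G using MvPolynomial.induction_on with
  | C a => exact ⟨0, by simp [ev_C]⟩
  | add f g hf hg =>
    obtain ⟨e, he⟩ := hf
    obtain ⟨e', he'⟩ := hg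
    exact ⟨e + e', by simp only [map_add]; rw [he, he']; ring⟩
  | mul_X f i hf =>
    obtain ⟨e, he⟩ := hf
    cases i with
    | none =>
      refine ⟨e * x none + ev x (pderiv none f) + δ * e, ?_⟩
      simp only [map_mul, ev_X, Derivation.leibniz, smul_eq_mul, map_add, pderiv_X_self, mul_one]
      rw [he, hn]
      ring
    | some b =>
      refine ⟨e * x (some b), ?_⟩
      have h0 : pderiv (none : Option ι) (X (some b) : MvPolynomial (Option ι) ℤ) = 0 :=
        pderiv_X_of_ne (by simp)
      rw [Derivation.leibniz, h0, smul_zero, zero_add, smul_eq_mul, map_mul, map_mul, map_mul, ev_X,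
        ev_X, he, hb]
      ring

/-! ### The chain rule -/

theorem chain {σ R : Type*} [Fintype σ] [CommRing R] (g : σ → Polynomial R) (G : MvPolynomial σ ℤ) :
    Polynomial.derivative (ev g G) = ∑ i, ev g (pderiv i G) * Polynomial.derivative (g i) := by
  classical
  induction G using MvPolynomial.induction_on with
  | C a =>
    simp only [ev_C, pderiv_C, map_zero, zero_mul, Finset.sum_const_zero]
    simp
  | add f h hf hh =>
    simp only [map_add, hf, hh, add_mul, Finset.sum_add_distrib]
  | mul_X f i hf =>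
    have h1 : ∑ x, ev g f * ev g (pderiv x (X i : MvPolynomial σ ℤ)) *
        Polynomial.derivative (g x) = ev g f * Polynomial.derivative (g i) := by
      rw [Finset.sum_eq_single i]
      · rw [pderiv_X_self, map_one, mul_one]
      · intro j _ hj
        rw [pderiv_X_of_ne hj.symm, map_zero, mul_zero, zero_mul]
      · intro h
        exact absurd (Finset.mem_univ _) h
    have h2 : ∀ x, ev g (pderiv x (f * X i)) = ev g f * ev g (pderiv x (X i : MvPolynomial σ ℤ)) +
        ev g (pderiv x f) * g i := by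
      intro x
      rw [Derivation.leibniz, smul_eq_mul, smul_eq_mul, map_add, map_mul, map_mul, ev_X]
      ring
    simp only [h2]
    simp only [add_mul, Finset.sum_add_distrib]
    have h3 : ∑ x, ev g (pderiv x f) * g i * Polynomial.derivative (g x) =
        (∑ x, ev g (pderiv x f) * Polynomial.derivative (g x)) * g i := by
      rw [Finset.sum_mul]
      exact Finset.sum_congr rfl fun j _ => by ring
    rw [h1, h3, map_mul, ev_X, Polynomial.derivative_mul, hf, add_comm]

/-! ### Formal solutions -/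

section

variable {d : ℕ} {R : Type*} [CommRing R]

/-- the point `(s + h X, θ)` -/
noncomputable def pt (s h : Fin d → R) (θ : Polynomial R) : Option (Fin d) → Polynomial R :=
  fun o => o.elim θ (fun b => Polynomial.C (s b) + Polynomial.C (h b) * Polynomial.X)

theorem coeff_zero {σ : Type*} (g : σ → Polynomial R) (G : MvPolynomial σ ℤ) :
    (ev g G).coeff 0 = ev (fun i => (g i).coeff 0) G := by
  simp only [Polynomial.coeff_zero_eq_eval_zero]
  exact ev_map (Polynomial.evalRingHom (0 : R)) g G

theorem eval_pt {σ : Type*} (g : σ → Polynomial R) (x : R) (G : MvPolynomial σ ℤ) :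
    Polynomial.eval x (ev g G) = ev (fun i => Polynomial.eval x (g i)) G :=
  ev_map (Polynomial.evalRingHom x) g G

theorem pt_zero (s h : Fin d → R) (s₀ : R) (θ : Polynomial R) (hθ : θ.coeff 0 = s₀) :
    (fun i => (pt s h θ i).coeff 0) = fun o : Option (Fin d) => o.elim s₀ s := by
  funext o
  cases o with
  | none => exact hθ
  | some b => simp [pt]

theorem exists_theta (H : MvPolynomial (Option (Fin d)) ℤ) (s h : Fin d → R) (s₀ u : R)
    (h0 : ev (fun o : Option (Fin d) => o.elim s₀ s) H = 0)
    (hu : u * ev (fun o : Option (Fin d) => o.elim s₀ s) (pderiv none H) = 1) (k : ℕ) :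
    ∃ θ : Polynomial R, θ.coeff 0 = s₀ ∧ Polynomial.X ^ (k + 1) ∣ ev (pt s h θ) H := by
  induction k with
  | zero =>
    refine ⟨Polynomial.C s₀, by simp, ?_⟩
    rw [zero_add, pow_one, Polynomial.X_dvd_iff, coeff_zero, pt_zero s h s₀ _ (by simp), h0]
  | succ k ih =>
    obtain ⟨θ, hθ, E, hE⟩ := ih
    set e : R := E.coeff 0 with he
    refine ⟨θ - Polynomial.X ^ (k + 1) * Polynomial.C (u * e), ?_, ?_⟩
    · rw [Polynomial.coeff_sub, hθ]
      simp [pow_succ, mul_assoc]
    · obtain ⟨e', he'⟩ := taylor (pt s h θ) (pt s h (θ - Polynomial.X ^ (k + 1) * Polynomial.C (u * e)))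
        (-(Polynomial.X ^ (k + 1) * Polynomial.C (u * e))) (fun b => rfl)
        (by simp only [pt, Option.elim]; ring) H
      rw [he', hE]
      have h1 : Polynomial.X ^ (k + 1) * E + -(Polynomial.X ^ (k + 1) * Polynomial.C (u * e)) *
          ev (pt s h θ) (pderiv none H) +
          (-(Polynomial.X ^ (k + 1) * Polynomial.C (u * e))) ^ 2 * e' =
          Polynomial.X ^ (k + 1) * (E - Polynomial.C (u * e) * ev (pt s h θ) (pderiv none H) +
            Polynomial.X * (Polynomial.X ^ k * Polynomial.C (u * e) ^ 2 * e')) := by ring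
      rw [h1, pow_succ Polynomial.X (k + 1)]
      refine mul_dvd_mul_left _ (dvd_add ?_ (dvd_mul_right _ _))
      rw [Polynomial.X_dvd_iff, Polynomial.coeff_sub, Polynomial.coeff_C_mul, coeff_zero,
        pt_zero s h s₀ θ hθ, mul_right_comm, hu, one_mul, ← he, sub_self]

end

/-! ### Wronskians -/

theorem wronsk {R : Type*} [CommRing R] [IsDomain R] [CharZero R] (u v : Polynomial R) (r : ℕ)
    (hv : v.coeff 0 ≠ 0)
    (hW : Polynomial.X ^ r ∣ Polynomial.derivative u * v - u * Polynomial.derivative v) :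
    Polynomial.X ^ (r + 1) ∣ u * Polynomial.C (v.coeff 0) - Polynomial.C (u.coeff 0) * v := by
  set G := u * Polynomial.C (v.coeff 0) - Polynomial.C (u.coeff 0) * v with hG
  have hG' : Polynomial.derivative G * v - G * Polynomial.derivative v =
      Polynomial.C (v.coeff 0) * (Polynomial.derivative u * v - u * Polynomial.derivative v) := by
    rw [hG]
    simp only [Polynomial.derivative_sub, Polynomial.derivative_mul, Polynomial.derivative_C]
    ring
  have hd : Polynomial.X ^ r ∣ Polynomial.derivative G * v - G * Polynomial.derivative v := by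
    rw [hG']
    exact Dvd.dvd.mul_left hW _
  have hXv : ¬ Polynomial.X ∣ v := by rwa [Polynomial.X_dvd_iff]
  have main : ∀ k, k ≤ r → Polynomial.X ^ (k + 1) ∣ G := by
    intro k
    induction k with
    | zero =>
      intro _
      rw [zero_add, pow_one, Polynomial.X_dvd_iff, hG]
      simp [mul_comm]
    | succ k ih =>
      intro hk
      obtain ⟨G₁, h1⟩ := ih (by omega)
      have h2 : Polynomial.X ^ (k + 1) ∣
          Polynomial.derivative G * v - G * Polynomial.derivative v :=
        (pow_dvd_pow _ (by omega)).trans hd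
      have h3 : Polynomial.X ^ (k + 1) ∣ Polynomial.derivative G * v := by
        have h4 : Polynomial.X ^ (k + 1) ∣ G * Polynomial.derivative v := by
          rw [h1, mul_assoc]; exact dvd_mul_right _ _
        have := dvd_add h2 h4
        rwa [sub_add_cancel] at this
      have h5 : Polynomial.X ^ (k + 1) ∣ Polynomial.derivative G := by
        rw [mul_comm] at h3
        exact Polynomial.prime_X.pow_dvd_of_dvd_mul_left _ hXv h3
      have h6 : Polynomial.X ^ (k + 1) ∣
          Polynomial.X ^ k * ((((k + 1 : ℕ) : Polynomial R)) * G₁) := by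
        rw [h1, Polynomial.derivative_mul, Polynomial.derivative_X_pow] at h5
        have h7 : Polynomial.X ^ (k + 1) ∣ Polynomial.X ^ (k + 1) * Polynomial.derivative G₁ :=
          dvd_mul_right _ _
        have h8 := dvd_sub h5 h7
        have h9 : Polynomial.C ((k + 1 : ℕ) : R) * Polynomial.X ^ (k + 1 - 1) * G₁ +
            Polynomial.X ^ (k + 1) * Polynomial.derivative G₁ -
            Polynomial.X ^ (k + 1) * Polynomial.derivative G₁ =
            Polynomial.X ^ k * ((((k + 1 : ℕ) : Polynomial R)) * G₁) := by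
          rw [Nat.add_sub_cancel, Polynomial.C_eq_natCast]
          ring
        rwa [h9] at h8
      rw [pow_succ] at h6
      have h10 : Polynomial.X ∣ (((k + 1 : ℕ) : Polynomial R)) * G₁ :=
        (mul_dvd_mul_iff_left (pow_ne_zero _ Polynomial.X_ne_zero)).1 h6
      rcases Polynomial.prime_X.dvd_or_dvd h10 with h11 | h11
      · exfalso
        rw [Polynomial.X_dvd_iff, Polynomial.coeff_natCast_ite, if_pos rfl] at h11
        exact Nat.cast_ne_zero.2 (Nat.succ_ne_zero k) h11
      · rw [h1, pow_succ Polynomial.X (k + 1)]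
        exact mul_dvd_mul_left _ h11
  exact main r le_rfl

/-! ### The relation along a formal solution -/

section

variable {d : ℕ} {R : Type*} [CommRing R] [IsDomain R] [CharZero R]

theorem formal (H U V c : MvPolynomial (Option (Fin d)) ℤ)
    (Q : Fin d → MvPolynomial (Option (Fin d)) ℤ)
    (hQ : ∀ a, c * (V * dl H a U - U * dl H a V) = H * Q a)
    (s h : Fin d → R) (θ : Polynomial R) (r : ℕ)
    (hθ : Polynomial.X ^ (r + 1) ∣ ev (pt s h θ) H)
    (hc : (ev (pt s h θ) c).coeff 0 ≠ 0) (hH : (ev (pt s h θ) (pderiv none H)).coeff 0 ≠ 0)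
    (hV : (ev (pt s h θ) V).coeff 0 ≠ 0) :
    Polynomial.X ^ (r + 1) ∣ ev (pt s h θ) U * Polynomial.C ((ev (pt s h θ) V).coeff 0) -
      Polynomial.C ((ev (pt s h θ) U).coeff 0) * ev (pt s h θ) V := by
  refine wronsk _ _ r hV ?_
  set g := pt s h θ with hg
  have hgs : ∀ b, Polynomial.derivative (g (some b)) = Polynomial.C (h b) := by
    intro b
    simp [hg, pt]
  have hgn : g none = θ := rfl
  have hch : ∀ G : MvPolynomial (Option (Fin d)) ℤ, Polynomial.derivative (ev g G) =
      ev g (pderiv none G) * Polynomial.derivative θ +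
        ∑ b, ev g (pderiv (some b) G) * Polynomial.C (h b) := by
    intro G
    rw [chain, Fintype.sum_option, hgn]
    simp only [hgs]
  have hH' : Polynomial.X ^ r ∣ Polynomial.derivative (ev g H) := by
    obtain ⟨E, hE⟩ := hθ
    rw [hE, Polynomial.derivative_mul, Polynomial.derivative_X_pow, Nat.add_sub_cancel]
    refine dvd_add ?_ ?_
    · rw [mul_assoc, mul_left_comm]; exact dvd_mul_right _ _
    · rw [pow_succ, mul_assoc]; exact dvd_mul_right _ _
  have hX1 : ¬ Polynomial.X ∣ ev g c := by rwa [Polynomial.X_dvd_iff]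
  have hX2 : ¬ Polynomial.X ∣ ev g (pderiv none H) := by rwa [Polynomial.X_dvd_iff]
  have hX3 : ¬ Polynomial.X ∣ ev g c * ev g (pderiv none H) := by
    intro hx
    rcases Polynomial.prime_X.dvd_or_dvd hx with h1 | h1
    · exact hX1 h1
    · exact hX2 h1
  refine Polynomial.prime_X.pow_dvd_of_dvd_mul_left _ hX3 ?_
  -- the identity
  have e1 : ev g H * (∑ b, ev g (Q b) * Polynomial.C (h b)) =
      ev g c * (ev g V * (ev g (pderiv none H) * (∑ b, ev g (pderiv (some b) U) * Polynomial.C (h b)) -
          (∑ b, ev g (pderiv (some b) H) * Polynomial.C (h b)) * ev g (pderiv none U)) -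
        ev g U * (ev g (pderiv none H) * (∑ b, ev g (pderiv (some b) V) * Polynomial.C (h b)) -
          (∑ b, ev g (pderiv (some b) H) * Polynomial.C (h b)) * ev g (pderiv none V))) := by
    simp only [Finset.mul_sum, Finset.sum_mul, ← Finset.sum_sub_distrib]
    refine Finset.sum_congr rfl fun b _ => ?_
    have h2 := congrArg (ev g) (hQ b)
    simp only [dl, map_mul, map_sub] at h2
    linear_combination (-Polynomial.C (h b)) * h2
  have key : ev g c * ev g (pderiv none H) *
      (Polynomial.derivative (ev g U) * ev g V - ev g U * Polynomial.derivative (ev g V)) =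
      ev g H * (∑ b, ev g (Q b) * Polynomial.C (h b)) +
      Polynomial.derivative (ev g H) * (ev g c * (ev g (pderiv none U) * ev g V -
        ev g U * ev g (pderiv none V))) := by
    rw [e1, hch U, hch V, hch H]
    ring
  rw [key]
  exact dvd_add (Dvd.dvd.mul_right ((pow_dvd_pow _ (Nat.le_succ r)).trans hθ) _)
    (Dvd.dvd.mul_right hH' _)

end

/-! ### Residue classes -/

open Pool.Agent.Y902.FB

theorem claim {d : ℕ} (q : ℕ) [Fact q.Prime] (H U V c : MvPolynomial (Option (Fin d)) ℤ)
    (Q : Fin d → MvPolynomial (Option (Fin d)) ℤ)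
    (hQ : ∀ a, c * (V * dl H a U - U * dl H a V) = H * Q a)
    (s s' : Option (Fin d) → ℤ) (hs : eval s H = 0) (hs' : eval s' H = 0)
    (hcong : ∀ i, (q : ℤ) ∣ s' i - s i)
    (hN : ¬ (q : ℤ) ∣ eval s (pderiv none H * c * U * V)) :
    eval s U * eval s' V = eval s' U * eval s V := by
  classical
  have hq0 : (q : ℤ) ≠ 0 := by exact_mod_cast (Fact.out : q.Prime).ne_zero
  have hN1 : ¬ (q : ℤ) ∣ eval s (pderiv none H) := fun h => hN (by
    simp only [map_mul, mul_assoc]; exact Dvd.dvd.mul_right h _)
  have hN2 : ¬ (q : ℤ) ∣ eval s c := fun h => hN (by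
    simp only [map_mul]
    exact Dvd.dvd.mul_right (Dvd.dvd.mul_right (Dvd.dvd.mul_left h _) _) _)
  have hN3 : ¬ (q : ℤ) ∣ eval s V := fun h => hN (by
    simp only [map_mul]
    exact Dvd.dvd.mul_left h _)
  have hcast : ∀ x : ℤ, ¬ (q : ℤ) ∣ x → (x : ℤ_[q]) ≠ 0 := by
    intro x hx h0
    apply hx
    have : x = 0 := by exact_mod_cast h0
    rw [this]; exact dvd_zero _
  choose h hh using fun b : Fin d => hcong (some b)
  set x : Option (Fin d) → ℤ_[q] := fun i => (s i : ℤ_[q]) with hx
  set x' : Option (Fin d) → ℤ_[q] := fun i => (s' i : ℤ_[q]) with hx'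
  set sR : Fin d → ℤ_[q] := fun b => (s (some b) : ℤ_[q]) with hsR
  set hR : Fin d → ℤ_[q] := fun b => (h b : ℤ_[q]) with hhR
  have hel : (fun o : Option (Fin d) => o.elim (x none) sR) = x := by
    funext o
    cases o <;> rfl
  have hunit : IsUnit ((eval s (pderiv none H) : ℤ) : ℤ_[q]) := by
    rw [PadicInt.isUnit_iff]
    refine le_antisymm (PadicInt.norm_le_one _) ?_
    by_contra hlt
    push Not at hlt
    exact hN1 ((PadicInt.norm_int_lt_one_iff_dvd _).1 hlt)
  obtain ⟨u, hu⟩ := hunit.exists_left_inv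
  have main : ∀ n : ℕ, ((q : ℤ) ^ (n + 1)) ∣ eval s U * eval s' V - eval s' U * eval s V := by
    intro n
    obtain ⟨θ, hθ0, hθ⟩ := exists_theta H sR hR (x none) u (by rw [hel, ev_cast, hs]; simp)
      (by rw [hel, ev_cast, hu]) n
    have hco : ∀ G : MvPolynomial (Option (Fin d)) ℤ,
        (ev (pt sR hR θ) G).coeff 0 = ((eval s G : ℤ) : ℤ_[q]) := by
      intro G
      rw [coeff_zero, pt_zero sR hR _ θ hθ0, hel, ev_cast]
    have h1 := formal H U V c Q hQ sR hR θ n hθ (by rw [hco]; exact hcast _ hN2)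
      (by rw [hco]; exact hcast _ hN1) (by rw [hco]; exact hcast _ hN3)
    rw [hco, hco] at h1
    set y : Option (Fin d) → ℤ_[q] := fun i => Polynomial.eval (q : ℤ_[q]) (pt sR hR θ i) with hy
    have hyb : ∀ b, y (some b) = x' (some b) := by
      intro b
      have h2 : ((s' (some b) : ℤ) : ℤ_[q]) - (s (some b) : ℤ_[q]) = (q : ℤ_[q]) * (h b : ℤ_[q]) := by
        exact_mod_cast congrArg (Int.cast : ℤ → ℤ_[q]) (hh b)
      simp only [hy, pt, Option.elim, Polynomial.eval_add, Polynomial.eval_mul, Polynomial.eval_C,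
        Polynomial.eval_X, hx', hsR, hhR]
      linear_combination -h2
    obtain ⟨δ, hδ⟩ : ∃ δ, δ = y none - x' none := ⟨_, rfl⟩
    have hyn : y none = x' none + δ := by rw [hδ]; ring
    have hpow : ∀ P : Polynomial ℤ_[q], Polynomial.X ^ (n + 1) ∣ P →
        (q : ℤ_[q]) ^ (n + 1) ∣ Polynomial.eval (q : ℤ_[q]) P := by
      rintro P ⟨P', rfl⟩
      rw [Polynomial.eval_mul, Polynomial.eval_pow, Polynomial.eval_X]
      exact dvd_mul_right _ _
    have hqδ : (q : ℤ_[q]) ∣ δ := by
      have h2 := Polynomial.sub_dvd_eval_sub (q : ℤ_[q]) 0 θ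
      rw [sub_zero, ← Polynomial.coeff_zero_eq_eval_zero, hθ0] at h2
      have h3 : (q : ℤ_[q]) ∣ ((s' none - s none : ℤ) : ℤ_[q]) := by
        obtain ⟨w, hw⟩ := hcong none
        rw [hw]
        push_cast
        exact dvd_mul_right _ _
      have h4 := dvd_sub h2 h3
      have h5 : Polynomial.eval (q : ℤ_[q]) θ - x none - ((s' none - s none : ℤ) : ℤ_[q]) = δ := by
        rw [hδ]
        simp only [hy, pt, Option.elim, hx, hx']
        push_cast
        ring
      rwa [h5] at h4
    -- the last coordinate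
    have hδn : (q : ℤ_[q]) ^ (n + 1) ∣ δ := by
      obtain ⟨e, he⟩ := taylor x' y δ hyb hyn H
      have h2 := hpow _ hθ
      rw [eval_pt] at h2
      change (q : ℤ_[q]) ^ (n + 1) ∣ ev y H at h2
      rw [he, ev_cast, ev_cast, hs'] at h2
      have h3 : ((0 : ℤ) : ℤ_[q]) + δ * ((eval s' (pderiv none H) : ℤ) : ℤ_[q]) + δ ^ 2 * e =
          δ * (((eval s' (pderiv none H) : ℤ) : ℤ_[q]) + δ * e) := by
        push_cast; ring
      rw [h3] at h2
      refine PadicInt.prime_p.pow_dvd_of_dvd_mul_right _ ?_ h2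
      intro h4
      have h5 := dvd_sub h4 (Dvd.dvd.mul_right hqδ e)
      rw [add_sub_cancel_right] at h5
      have h6 : (q : ℤ) ∣ eval s' (pderiv none H) := by
        have := (PadicInt.pow_p_dvd_int_iff 1 (eval s' (pderiv none H))).1 (by rwa [pow_one])
        simpa using this
      have h7 := eval_congr_dvd (q : ℤ) (pderiv none H) s' s hcong
      exact hN1 ((dvd_sub_right h6).1 h7)
    have hG : ∀ G : MvPolynomial (Option (Fin d)) ℤ,
        (q : ℤ_[q]) ^ (n + 1) ∣ ev y G - ((eval s' G : ℤ) : ℤ_[q]) := by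
      intro G
      obtain ⟨e, he⟩ := taylor x' y δ hyb hyn G
      rw [he, ev_cast]
      have h3 : ((eval s' G : ℤ) : ℤ_[q]) + δ * ev x' (pderiv none G) + δ ^ 2 * e -
          ((eval s' G : ℤ) : ℤ_[q]) = δ * (ev x' (pderiv none G) + δ * e) := by ring
      rw [h3]
      exact Dvd.dvd.mul_right hδn _
    have h2 := hpow _ h1
    rw [Polynomial.eval_sub, Polynomial.eval_mul, Polynomial.eval_mul, Polynomial.eval_C,
      Polynomial.eval_C, eval_pt, eval_pt] at h2
    change (q : ℤ_[q]) ^ (n + 1) ∣ ev y U * ((eval s V : ℤ) : ℤ_[q]) -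
      ((eval s U : ℤ) : ℤ_[q]) * ev y V at h2
    have h3 : (q : ℤ_[q]) ^ (n + 1) ∣
        ((eval s U * eval s' V - eval s' U * eval s V : ℤ) : ℤ_[q]) := by
      have h4 := dvd_sub (dvd_sub (Dvd.dvd.mul_right (hG U) ((eval s V : ℤ) : ℤ_[q]))
        (Dvd.dvd.mul_left (hG V) ((eval s U : ℤ) : ℤ_[q]))) h2
      have h5 : (ev y U - ((eval s' U : ℤ) : ℤ_[q])) * ((eval s V : ℤ) : ℤ_[q]) -
          ((eval s U : ℤ) : ℤ_[q]) * (ev y V - ((eval s' V : ℤ) : ℤ_[q])) -
          (ev y U * ((eval s V : ℤ) : ℤ_[q]) - ((eval s U : ℤ) : ℤ_[q]) * ev y V) =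
          ((eval s U * eval s' V - eval s' U * eval s V : ℤ) : ℤ_[q]) := by
        push_cast
        ring
      rwa [h5] at h4
    have := (PadicInt.pow_p_dvd_int_iff (n + 1) _).1 h3
    exact_mod_cast this
  have h1 := main (eval s U * eval s' V - eval s' U * eval s V).natAbs
  have h2 := Int.eq_zero_of_abs_lt_dvd h1 (by
    have h3 : (eval s U * eval s' V - eval s' U * eval s V).natAbs <
        q ^ ((eval s U * eval s' V - eval s' U * eval s V).natAbs + 1) :=
      (Nat.lt_succ_self _).trans (Nat.lt_pow_self (Fact.out : q.Prime).one_lt)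
    have h4 : |eval s U * eval s' V - eval s' U * eval s V| =
        ((eval s U * eval s' V - eval s' U * eval s V).natAbs : ℤ) := Int.abs_eq_natAbs _
    rw [h4]
    exact_mod_cast h3)
  linarith

/-- **Job B** -/
theorem t : S_B := by
  classical
  intro d
  refine ⟨1000000, fun X hX H U V c Q hQ α T s hT => ?_⟩
  rcases T.eq_empty_or_nonempty with rfl | hTne
  · exact ⟨∅, Finset.Subset.refl _, by simp, by simp⟩
  obtain ⟨Qs, hQ1, hQ2, hQs⟩ := Pool.Agent.Y902.FD.many_primes X hX
  have hpr : ∀ t : α, ∃ q : ℕ, t ∈ T → q ∈ Qs ∧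
      ¬ (q : ℤ) ∣ eval (s t) (pderiv none H * c * U * V) := by
    intro t
    by_cases ht : t ∈ T
    · obtain ⟨h0, h1, h2⟩ := hT t ht
      obtain ⟨q, hq, hq2⟩ := exists_prime_not_dvd Qs (fun q hq => (hQs q hq).1) X
        (fun q hq => (hQs q hq).2.1) _ h1 (by
          refine h2.trans_le ?_
          calc (2 : ℤ) ^ X ≤ (X : ℤ) ^ X := by
                exact pow_le_pow_left₀ (by norm_num) (by exact_mod_cast (by omega : 2 ≤ X)) _
            _ ≤ (X : ℤ) ^ Qs.card :=
                pow_le_pow_right₀ (by exact_mod_cast (by omega : 1 ≤ X)) hQ1)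
      exact ⟨q, fun _ => ⟨hq, hq2⟩⟩
    · exact ⟨0, fun h => absurd h ht⟩
  choose qf hqf using hpr
  -- classes
  set f : α → ℕ × (Option (Fin d) → ℕ) := fun t => (qf t, fun i => ((s t i) % (qf t : ℤ)).toNat)
    with hf
  set B : Finset (ℕ × (Option (Fin d) → ℕ)) :=
    Qs ×ˢ Fintype.piFinset (fun _ => Finset.range (X ^ 2)) with hB
  have hfB : ∀ t ∈ T, f t ∈ B := by
    intro t ht
    have h1 := (hqf t ht).1
    have h2 := hQs _ h1
    have hpos : (0 : ℤ) < (qf t : ℤ) := by exact_mod_cast h2.1.pos
    rw [hB, Finset.mem_product]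
    refine ⟨h1, ?_⟩
    rw [Fintype.mem_piFinset]
    intro i
    rw [Finset.mem_range]
    have h3 := Int.emod_lt_of_pos (s t i) hpos
    have h4 := Int.emod_nonneg (s t i) hpos.ne'
    have h5 : ((s t i) % (qf t : ℤ)).toNat < qf t := by omega
    exact h5.trans_le h2.2.2
  have hBc : B.card ≤ X ^ (2 * d + 5) := by
    rw [hB, Finset.card_product, Fintype.card_piFinset]
    simp only [Finset.card_range, Finset.prod_const, Finset.card_univ, Fintype.card_option,
      Fintype.card_fin]
    calc Qs.card * (X ^ 2) ^ (d + 1) ≤ X ^ 3 * (X ^ 2) ^ (d + 1) := Nat.mul_le_mul_right _ hQ2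
      _ = X ^ (2 * d + 5) := by rw [← pow_mul, ← pow_add]; congr 1; ring
  obtain ⟨b, hb, hbmax⟩ := Finset.exists_max_image (T.image f)
    (fun b => (T.filter fun t => f t = b).card) (hTne.image f)
  refine ⟨T.filter fun t => f t = b, Finset.filter_subset _ _, ?_, ?_⟩
  · have h1 := Finset.card_le_mul_card_image (f := f) T _ hbmax
    have h2 : (T.image f).card ≤ B.card := Finset.card_le_card (by
      intro y hy
      obtain ⟨t, ht, rfl⟩ := Finset.mem_image.1 hy
      exact hfB t ht)
    calc T.card ≤ (T.filter fun t => f t = b).card * (T.image f).card := h1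
      _ ≤ (T.filter fun t => f t = b).card * X ^ (2 * d + 5) :=
          Nat.mul_le_mul_left _ (h2.trans hBc)
      _ = X ^ (2 * d + 5) * (T.filter fun t => f t = b).card := Nat.mul_comm _ _
  · intro t ht t' ht'
    rw [Finset.mem_filter] at ht ht'
    obtain ⟨htT, hft⟩ := ht
    obtain ⟨htT', hft'⟩ := ht'
    have hft2 : f t = f t' := by rw [hft, hft']
    have hqq : qf t = qf t' := congrArg Prod.fst hft2
    have hp := hQs _ (hqf t htT).1
    have : Fact (qf t).Prime := ⟨hp.1⟩
    have hpos : (0 : ℤ) < (qf t : ℤ) := by exact_mod_cast hp.1.pos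
    refine claim (qf t) H U V c Q hQ (s t) (s t') (hT t htT).1 (hT t' htT').1 ?_ (hqf t htT).2
    intro i
    have h1 : ((s t i) % (qf t : ℤ)).toNat = ((s t' i) % (qf t' : ℤ)).toNat :=
      congrFun (congrArg Prod.snd hft2) i
    rw [← hqq] at h1
    have h2 := Int.emod_nonneg (s t i) hpos.ne'
    have h3 := Int.emod_nonneg (s t' i) hpos.ne'
    have h4 : (s t i) % (qf t : ℤ) = (s t' i) % (qf t : ℤ) := by omega
    exact Int.ModEq.dvd h4

end Pool.Agent.Y317.GN
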